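import Mathlib.Tactic.Linarith.Frontend
import Mathlib.Order.ConditionallyCompleteLattice.Basic
import Mathlib.Tactic.NormNum.Ineq
import Mathlib.Tactic.Ring.RingNF
import Mathlib.Data.Fintype.BigOperators
import Mathlib.Algebra.BigOperators.Ring.Finset
import Mathlib.Algebra.Order.BigOperators.Group.Finset
import Mathlib.Tactic.Monotonicity.Lemmas
import Mathlib.Data.Int.ConditionallyCompleteOrder
import Mathlib.Data.Int.Star
import Mathlib.Algebra.Order.Ring.Star
import Pool.Agent.MP_a4cd82_co.Dirac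

/-!
Triangle-rich subgraphs and the embedding of graphs without a `K₄` minor.
-/

namespace Pool.Agent.MP_a4cd82_co

open Finset Classical

variable {V W : Type} [DecidableEq V] [Fintype W]

/-- Common neighbours. -/
noncomputable def cn (H : SimpleGraph W) (x y : W) : Finset W :=
  univ.filter fun z => H.Adj x z ∧ H.Adj y z

lemma embed {n : ℕ} (hn : 2 ≤ n) (H : SimpleGraph W) (h1 : ∃ x y, H.Adj x y)
    (h2 : ∀ x y, H.Adj x y → n - 2 ≤ (cn H x y).card) (m : ℕ) (hm : m ≤ n) :
    ∀ (G : SimpleGraph V) (S : Finset V), S.card = m → ¬ HasK4 G S →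
      ∃ f : V → W, Set.InjOn f S ∧ (∀ v ∈ S, ∃ y, H.Adj (f v) y) ∧
        ∀ u ∈ S, ∀ v ∈ S, G.Adj u v → H.Adj (f u) (f v) := by
  induction m with
  | zero =>
    intro G S hS _
    obtain rfl := card_eq_zero.1 hS
    obtain ⟨x, _, _⟩ := h1
    exact ⟨fun _ => x, by simp, by simp, by simp⟩
  | succ m ih =>
    intro G S hS hK
    obtain ⟨v, hv, hdeg⟩ := dirac (card_pos.1 (by omega)) hK
    have hc : (S.erase v).card = m := by rw [card_erase_of_mem hv]; omega
    have hnb : nb G S v ⊆ S.erase v := fun y hy =>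
      mem_erase.2 ⟨(mem_nb.1 hy).2.ne', (mem_nb.1 hy).1⟩
    suffices h : ∃ f : V → W, Set.InjOn f (S.erase v) ∧ (∀ u ∈ S.erase v, ∃ y, H.Adj (f u) y) ∧
        (∀ u ∈ S.erase v, ∀ w ∈ S.erase v, G.Adj u w → H.Adj (f u) (f w)) ∧
        ∃ C : Finset W, n ≤ C.card + (nb G S v).card ∧ ∀ z ∈ C, (∃ y, H.Adj z y) ∧
          ∀ u ∈ nb G S v, H.Adj (f u) z by
      obtain ⟨f, f1, f2, f3, C, c1, c2⟩ := h
      obtain ⟨z, hz, hz'⟩ := exists_mem_notMem_of_card_lt_card
        (s := (S.erase v \ nb G S v).image f) (t := C) (by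
          have := card_image_le (s := S.erase v \ nb G S v) (f := f)
          have h3 := card_le_card hnb
          rw [card_sdiff_of_subset hnb] at this
          omega)
      have hz2 : ∀ u ∈ S.erase v, f u ≠ z := by
        intro u hu he
        by_cases h : u ∈ nb G S v
        · exact ((c2 z hz).2 u h).ne he
        · exact hz' (mem_image.2 ⟨u, mem_sdiff.2 ⟨hu, h⟩, he⟩)
      refine ⟨Function.update f v z, fun x hx y hy he => ?_, fun u hu => ?_,
        fun u hu w hw h => ?_⟩
      · by_cases h1 : x = v <;> by_cases h2 : y = v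
        · rw [h1, h2]
        · rw [h1, Function.update_self, Function.update_of_ne h2] at he
          exact absurd he.symm (hz2 y (mem_erase.2 ⟨h2, hy⟩))
        · rw [h2, Function.update_self, Function.update_of_ne h1] at he
          exact absurd he (hz2 x (mem_erase.2 ⟨h1, hx⟩))
        · rw [Function.update_of_ne h1, Function.update_of_ne h2] at he
          exact f1 (mem_coe.2 (mem_erase.2 ⟨h1, hx⟩)) (mem_coe.2 (mem_erase.2 ⟨h2, hy⟩)) he
      · by_cases h1 : u = v
        · rw [h1, Function.update_self]; exact (c2 z hz).1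
        · rw [Function.update_of_ne h1]; exact f2 u (mem_erase.2 ⟨h1, hu⟩)
      · by_cases h1 : u = v <;> by_cases h2 : w = v
        · exact absurd (h1.trans h2.symm) h.ne
        · rw [h1, Function.update_self, Function.update_of_ne h2]
          exact ((c2 z hz).2 w (mem_nb.2 ⟨hw, h1 ▸ h⟩)).symm
        · rw [h2, Function.update_self, Function.update_of_ne h1]
          exact (c2 z hz).2 u (mem_nb.2 ⟨hu, h2 ▸ h.symm⟩)
        · rw [Function.update_of_ne h1, Function.update_of_ne h2]
          exact f3 u (mem_erase.2 ⟨h1, hu⟩) w (mem_erase.2 ⟨h2, hw⟩) h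
    have hcn : ∀ x y z, z ∈ cn H x y ↔ H.Adj x z ∧ H.Adj y z := fun x y z => by simp [cn]
    obtain h | h | h : (nb G S v).card = 0 ∨ (nb G S v).card = 1 ∨ (nb G S v).card = 2 := by omega
    · obtain ⟨f, f1, f2, f3⟩ := ih (by omega) G (S.erase v) hc
        fun h => hK (h.mono (erase_subset _ _))
      obtain ⟨x, y, hxy⟩ := h1
      refine ⟨f, f1, f2, f3, insert x (insert y (cn H x y)), ?_, fun z hz => ⟨?_, ?_⟩⟩
      · have := h2 x y hxy
        rw [card_insert_of_notMem (by simp [hcn, hxy.ne]), card_insert_of_notMem (by simp [hcn])]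
        omega
      · simp only [mem_insert, hcn] at hz
        rcases hz with rfl | rfl | hz
        · exact ⟨y, hxy⟩
        · exact ⟨x, hxy.symm⟩
        · exact ⟨x, hz.1.symm⟩
      · rw [card_eq_zero.1 h]; simp
    · obtain ⟨f, f1, f2, f3⟩ := ih (by omega) G (S.erase v) hc
        fun h => hK (h.mono (erase_subset _ _))
      obtain ⟨a, ha⟩ := card_eq_one.1 h
      obtain ⟨y, hy⟩ := f2 a (hnb (by simp [ha]))
      refine ⟨f, f1, f2, f3, insert y (cn H (f a) y), ?_, fun z hz => ?_⟩
      · have := h2 _ y hy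
        rw [card_insert_of_notMem (by simp [hcn])]
        omega
      · have : H.Adj (f a) z := by
          simp only [mem_insert, hcn] at hz
          rcases hz with rfl | hz
          · exact hy
          · exact hz.1
        exact ⟨⟨_, this.symm⟩, by simpa [ha] using this⟩
    · obtain ⟨a, b, hab, he⟩ := card_eq_two.1 h
      have ha : a ∈ nb G S v := by simp [he]
      have hb : b ∈ nb G S v := by simp [he]
      obtain ⟨f, f1, f2, f3⟩ := ih (by omega) (contr G a v) (S.erase v) hc
        fun h => hK (h.of_contr (mem_nb.1 ha).2.symm hv)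
      have hf := f3 a (hnb ha) b (hnb hb) ⟨hab, Or.inr (Or.inl ⟨rfl, (mem_nb.1 hb).2⟩)⟩
      refine ⟨f, f1, f2, fun u hu w hw h => f3 u hu w hw ⟨h.ne, Or.inl h⟩, cn H (f a) (f b), ?_,
        fun z hz => ?_⟩
      · have := h2 _ _ hf
        omega
      · rw [hcn] at hz
        exact ⟨⟨_, hz.1.symm⟩, by simpa [he] using hz⟩

/-- Ordered edges. -/
noncomputable def eo (H : SimpleGraph W) : Finset (W × W) := univ.filter fun p => H.Adj p.1 p.2

/-- Ordered triangles. -/
noncomputable def tr (H : SimpleGraph W) : Finset (W × W × W) :=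
  univ.filter fun p => H.Adj p.1 p.2.1 ∧ H.Adj p.1 p.2.2 ∧ H.Adj p.2.1 p.2.2

lemma core (k m : ℕ) : ∀ H : SimpleGraph W, (eo H).card ≤ m → 3 * k * (eo H).card < (tr H).card →
    ∃ H' ≤ H, (∃ x y, H'.Adj x y) ∧ ∀ x y, H'.Adj x y → k + 1 ≤ (cn H' x y).card := by
  induction m with
  | zero =>
    intro H h1 h2
    obtain ⟨p, hp⟩ := card_pos.1 (lt_of_le_of_lt (Nat.zero_le _) h2)
    have : (p.1, p.2.1) ∈ eo H := by simpa [eo] using (mem_filter.1 hp).2.1
    have := card_pos.2 ⟨_, this⟩
    omega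
  | succ m ih =>
    intro H h1 h2
    by_cases h : ∀ x y, H.Adj x y → k + 1 ≤ (cn H x y).card
    · obtain ⟨p, hp⟩ := card_pos.1 (lt_of_le_of_lt (Nat.zero_le _) h2)
      exact ⟨H, le_rfl, ⟨_, _, (mem_filter.1 hp).2.1⟩, h⟩
    push Not at h
    obtain ⟨u, v, huv, hk⟩ := h
    set H' := H.deleteEdges {s(u, v)} with hH'
    have hadj : ∀ x y, H'.Adj x y ↔ H.Adj x y ∧ ¬ ((x = u ∧ y = v) ∨ (x = v ∧ y = u)) := by
      intro x y; simp [hH']
    have e1 : (eo H').card + 2 = (eo H).card := by
      have : eo H = insert (u, v) (insert (v, u) (eo H')) := by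
        ext ⟨x, y⟩
        simp only [eo, mem_filter, mem_univ, true_and, mem_insert, Prod.mk.injEq, hadj]
        constructor
        · intro h; tauto
        · rintro (⟨rfl, rfl⟩ | ⟨rfl, rfl⟩ | h)
          · exact huv
          · exact huv.symm
          · exact h.1
      rw [this, card_insert_of_notMem (by simp [eo, hadj, huv.ne]),
        card_insert_of_notMem (by simp [eo, hadj])]
    have e2 : (tr H).card ≤ (tr H').card + 6 * k := by
      have hs : tr H ⊆ tr H' ∪ (((cn H u v).image (fun z => (u, v, z)) ∪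
          (cn H u v).image (fun z => (v, u, z))) ∪ ((cn H u v).image (fun z => (u, z, v)) ∪
          (cn H u v).image (fun z => (v, z, u))) ∪ ((cn H u v).image (fun z => (z, u, v)) ∪
          (cn H u v).image (fun z => (z, v, u)))) := by
        rintro ⟨x, y, z⟩ hp
        simp only [tr, mem_filter, mem_univ, true_and] at hp
        obtain ⟨a1, a2, a3⟩ := hp
        simp only [tr, cn, mem_union, mem_filter, mem_univ, true_and, hadj, mem_image,
          Prod.mk.injEq]
        by_cases c1 : (x = u ∧ y = v) ∨ (x = v ∧ y = u)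
        · rcases c1 with ⟨rfl, rfl⟩ | ⟨rfl, rfl⟩
          · exact Or.inr (Or.inl (Or.inl (Or.inl ⟨z, ⟨a2, a3⟩, rfl, rfl, rfl⟩)))
          · exact Or.inr (Or.inl (Or.inl (Or.inr ⟨z, ⟨a3, a2⟩, rfl, rfl, rfl⟩)))
        by_cases c2 : (x = u ∧ z = v) ∨ (x = v ∧ z = u)
        · rcases c2 with ⟨rfl, rfl⟩ | ⟨rfl, rfl⟩
          · exact Or.inr (Or.inl (Or.inr (Or.inl ⟨y, ⟨a1, a3.symm⟩, rfl, rfl, rfl⟩)))
          · exact Or.inr (Or.inl (Or.inr (Or.inr ⟨y, ⟨a3.symm, a1⟩, rfl, rfl, rfl⟩)))
        by_cases c3 : (y = u ∧ z = v) ∨ (y = v ∧ z = u)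
        · rcases c3 with ⟨rfl, rfl⟩ | ⟨rfl, rfl⟩
          · exact Or.inr (Or.inr (Or.inl ⟨x, ⟨a1.symm, a2.symm⟩, rfl, rfl, rfl⟩))
          · exact Or.inr (Or.inr (Or.inr ⟨x, ⟨a2.symm, a1.symm⟩, rfl, rfl, rfl⟩))
        exact Or.inl ⟨⟨a1, c1⟩, ⟨a2, c2⟩, a3, c3⟩
      have hu : ∀ f g : W → W × W × W,
          ((cn H u v).image f ∪ (cn H u v).image g).card ≤ 2 * k := fun f g => by
        have := card_union_le ((cn H u v).image f) ((cn H u v).image g)
        have := card_image_le (s := cn H u v) (f := f)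
        have := card_image_le (s := cn H u v) (f := g)
        omega
      refine (card_le_card hs).trans ((card_union_le _ _).trans (Nat.add_le_add_left
        ((card_union_le _ _).trans ?_) _))
      refine (add_le_add ((card_union_le _ _).trans (add_le_add (hu _ _) (hu _ _))) (hu _ _)).trans ?_
      omega
    obtain ⟨H'', h3, h4⟩ := ih H' (by omega) (by
      rw [← e1, mul_add] at h2
      omega)
    exact ⟨H'', h3.trans (SimpleGraph.deleteEdges_le _), h4⟩

lemma goodman (H : SimpleGraph W) :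
    (Fintype.card W : ℤ) * (Fintype.card W - 1) * (Fintype.card W - 5) ≤
      4 * ((tr H).card + (tr Hᶜ).card) ∧
    ((eo H).card + (eo Hᶜ).card : ℤ) = Fintype.card W * (Fintype.card W - 1) := by
  let r : W → W → ℤ := fun x y => if H.Adj x y then 1 else 0
  let b : W → W → ℤ := fun x y => if Hᶜ.Adj x y then 1 else 0
  let e : W → W → ℤ := fun x y => if x = y then 0 else 1
  set N : ℤ := (Fintype.card W : ℤ) with hN
  have hrb : ∀ x y, (r x y = 0 ∧ b x y = 0 ∧ e x y = 0) ∨ (r x y = 1 ∧ b x y = 0 ∧ e x y = 1) ∨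
      (r x y = 0 ∧ b x y = 1 ∧ e x y = 1) := by
    intro x y
    by_cases h : x = y
    · simp [r, b, e, h]
    · by_cases h' : H.Adj x y <;> simp [r, b, e, h, h']
  have rs : ∀ x y, r x y = r y x := fun x y => by simp only [r, H.adj_comm]
  have bs : ∀ x y, b x y = b y x := fun x y => by simp only [b, Hᶜ.adj_comm]
  have es : ∀ x y, e x y = e y x := fun x y => by simp only [e, eq_comm]
  have he : ∀ x, ∑ y, e x y = N - 1 := by
    intro x
    have : ∀ y, e x y = 1 - if x = y then 1 else 0 := fun y => by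
      simp only [e]; split_ifs <;> simp
    simp [this, hN]
  have hch : ∀ c : W → W → ℤ, (∀ x y, c x y * c x y = c x y) → ∀ x,
      ∑ y, ∑ z, c x y * c x z * e y z = (∑ y, c x y) ^ 2 - ∑ y, c x y := by
    intro c hc x
    have : ∀ y z, c x y * c x z * e y z = c x y * c x z - if y = z then c x y else 0 := by
      intro y z
      simp only [e]
      split_ifs with h
      · rw [← h, hc]; simp
      · simp
    simp only [this, Finset.sum_sub_distrib, Finset.sum_ite_eq, mem_univ, if_true, sq,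
      Finset.sum_mul_sum]
  have hd : ∀ x, ∑ y, r x y + ∑ y, b x y = N - 1 := by
    intro x
    rw [← he x, ← Finset.sum_add_distrib]
    exact Finset.sum_congr rfl fun y _ => by rcases hrb x y with h | h | h <;> simp [h]
  let s : W → W → W → ℤ := fun x y z => (r x y * r x z + b x y * b x z) * e y z
  have hs : N * ((N - 1) * (N - 3)) ≤ 2 * ∑ x, ∑ y, ∑ z, s x y z := by
    have : ∀ x ∈ (univ : Finset W), (N - 1) * (N - 3) ≤ 2 * ∑ y, ∑ z, s x y z := by
      intro x _
      have h1 := hch r (fun x y => by rcases hrb x y with h | h | h <;> simp [h]) x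
      have h2 := hch b (fun x y => by rcases hrb x y with h | h | h <;> simp [h]) x
      have h3 := hd x
      simp only [s, add_mul, Finset.sum_add_distrib, h1, h2]
      nlinarith [sq_nonneg (∑ y, r x y - ∑ y, b x y)]
    have := Finset.card_nsmul_le_sum _ _ _ this
    rwa [← Finset.mul_sum, nsmul_eq_mul, card_univ] at this
  have ht : ∀ x, ∑ y, ∑ z, e x y * e x z * e y z = (N - 1) ^ 2 - (N - 1) := fun x => by
    rw [hch e (fun x y => by rcases hrb x y with h | h | h <;> simp [h]) x, he]
  have hpt : ∀ x y z, 2 * (r x y * r x z * r y z + b x y * b x z * b y z) =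
      s x y z + s y x z + s z x y - e x y * e x z * e y z := by
    intro x y z
    simp only [s, rs y x, bs y x, rs z x, bs z x, rs z y, bs z y]
    rcases hrb x y with h1 | h1 | h1 <;> rcases hrb x z with h2 | h2 | h2 <;>
      rcases hrb y z with h3 | h3 | h3 <;> simp [h1, h2, h3]
  have t1 : ((tr H).card : ℤ) = ∑ x, ∑ y, ∑ z, r x y * r x z * r y z := by
    simp only [tr, card_filter, Fintype.sum_prod_type, r]
    push_cast
    refine Finset.sum_congr rfl fun x _ => Finset.sum_congr rfl fun y _ =>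
      Finset.sum_congr rfl fun z _ => ?_
    by_cases h1 : H.Adj x y <;> by_cases h2 : H.Adj x z <;> by_cases h3 : H.Adj y z <;>
      simp [h1, h2, h3]
  have t2 : ((tr Hᶜ).card : ℤ) = ∑ x, ∑ y, ∑ z, b x y * b x z * b y z := by
    simp only [tr, card_filter, Fintype.sum_prod_type, b]
    push_cast
    refine Finset.sum_congr rfl fun x _ => Finset.sum_congr rfl fun y _ =>
      Finset.sum_congr rfl fun z _ => ?_
    by_cases h1 : Hᶜ.Adj x y <;> by_cases h2 : Hᶜ.Adj x z <;> by_cases h3 : Hᶜ.Adj y z <;>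
      simp only [h1, h2, h3] <;> simp
  have p1 : ∑ x, ∑ y, ∑ z, s y x z = ∑ x, ∑ y, ∑ z, s x y z := Finset.sum_comm
  have p2 : ∑ x, ∑ y, ∑ z, s z x y = ∑ x, ∑ y, ∑ z, s x y z := by
    calc _ = ∑ x, ∑ z, ∑ y, s z x y := Finset.sum_congr rfl fun x _ => Finset.sum_comm
      _ = _ := Finset.sum_comm
  have p3 : 2 * ((tr H).card + (tr Hᶜ).card : ℤ) =
      3 * (∑ x, ∑ y, ∑ z, s x y z) - N * ((N - 1) ^ 2 - (N - 1)) := by
    rw [t1, t2]
    simp only [← Finset.sum_add_distrib, Finset.mul_sum (a := (2 : ℤ)), hpt]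
    simp only [Finset.sum_sub_distrib, Finset.sum_add_distrib, p1, p2, ht, Finset.sum_const,
      card_univ, nsmul_eq_mul]
    ring
  constructor
  · nlinarith
  · have e1 : ((eo H).card : ℤ) = ∑ x, ∑ y, r x y := by
      simp only [eo, card_filter, Fintype.sum_prod_type, r]; push_cast; rfl
    have e2 : ((eo Hᶜ).card : ℤ) = ∑ x, ∑ y, b x y := by
      simp only [eo, card_filter, Fintype.sum_prod_type, b]; push_cast; rfl
    rw [e1, e2, ← Finset.sum_add_distrib]
    simp only [hd, Finset.sum_const, card_univ, nsmul_eq_mul]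
    rfl

end Pool.Agent.MP_a4cd82_co
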