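import Mathlib.Tactic.FinCases
import Mathlib.Data.Fin.VecNotation
import Mathlib.Algebra.Notation.Lemmas
import Mathlib.Combinatorics.SimpleGraph.Connectivity.Connected
import Mathlib.Order.CompletePartialOrder

/-!
Graphs of minimum degree three have a `K₄` minor.
-/

namespace Pool.Agent.MP_a4cd82_co

open Finset Classical Relation

variable {V : Type} [DecidableEq V]

/-- Connectedness of a vertex set. -/
def Conn (G : SimpleGraph V) (B : Set V) : Prop :=
  B.Nonempty ∧ ∀ x ∈ B, ∀ y ∈ B, ReflTransGen (fun p q => p ∈ B ∧ q ∈ B ∧ G.Adj p q) x y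

/-- A `K₄` minor inside `S`. -/
def HasK4 (G : SimpleGraph V) (S : Finset V) : Prop :=
  ∃ B : Fin 4 → Set V, (∀ i, B i ⊆ S) ∧ (∀ i, Conn G (B i)) ∧
    (∀ i j, i ≠ j → Disjoint (B i) (B j)) ∧ ∀ i j, i ≠ j → ∃ x ∈ B i, ∃ y ∈ B j, G.Adj x y

omit [DecidableEq V] in
lemma Conn.connected {G : SimpleGraph V} {B : Set V} (h : Conn G B) : (G.induce B).Connected := by
  obtain ⟨⟨x, hx⟩, h⟩ := h
  have : Nonempty B := ⟨⟨x, hx⟩⟩
  refine ⟨fun ⟨u, hu⟩ ⟨v, hv⟩ => ?_⟩
  have := h u hu v hv
  induction this with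
  | refl => rfl
  | tail _ hbc ih => exact (ih hbc.1).trans (SimpleGraph.Adj.reachable hbc.2.2)

omit [DecidableEq V] in
lemma HasK4.mono {G : SimpleGraph V} {S T : Finset V} (h : HasK4 G S) (hST : S ⊆ T) :
    HasK4 G T := by
  obtain ⟨B, h1, h2⟩ := h
  exact ⟨B, fun i => (h1 i).trans (by exact_mod_cast hST), h2⟩

omit [DecidableEq V] in
lemma conn_singleton (G : SimpleGraph V) (a : V) : Conn G {a} :=
  ⟨⟨a, rfl⟩, fun x hx y hy => by
    rw [Set.mem_singleton_iff.1 hx, Set.mem_singleton_iff.1 hy]⟩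

/-- Contraction of `v` into `a`. -/
def contr (G : SimpleGraph V) (a v : V) : SimpleGraph V where
  Adj x y := x ≠ y ∧ (G.Adj x y ∨ (x = a ∧ G.Adj v y) ∨ (y = a ∧ G.Adj v x))
  symm := ⟨fun _ _ ⟨h1, h2⟩ => ⟨h1.symm, by
    rcases h2 with h | h | h
    · exact Or.inl h.symm
    · exact Or.inr (Or.inr h)
    · exact Or.inr (Or.inl h)⟩⟩
  loopless := ⟨fun _ h => h.1 rfl⟩

lemma HasK4.of_contr {G : SimpleGraph V} {S : Finset V} {a v : V} (hav : G.Adj a v) (hv : v ∈ S)
    (h : HasK4 (contr G a v) (S.erase v)) : HasK4 G S := by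
  obtain ⟨B, h1, h2, h3, h4⟩ := h
  have hvB : ∀ i, v ∉ B i := fun i hi => by simpa using h1 i hi
  let B' : Fin 4 → Set V := fun i => {x | x ∈ B i ∨ (x = v ∧ a ∈ B i)}
  refine ⟨B', fun i x hx => ?_, fun i => ?_, fun i j hij => ?_, fun i j hij => ?_⟩
  · rcases hx with hx | ⟨rfl, _⟩
    · exact mem_coe.2 (mem_of_mem_erase (h1 i hx))
    · exact hv
  · obtain ⟨⟨x0, hx0⟩, hc⟩ := h2 i
    have key : ∀ x ∈ B i, ∀ y ∈ B i,
        ReflTransGen (fun p q => p ∈ B' i ∧ q ∈ B' i ∧ G.Adj p q) x y := by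
      intro x hx y hy
      have := hc x hx y hy
      clear hy
      induction this with
      | refl => exact ReflTransGen.refl
      | tail _ hbc ih =>
        obtain ⟨hb, hc', -, h | ⟨rfl, h⟩ | ⟨rfl, h⟩⟩ := hbc
        · exact ih.tail ⟨Or.inl hb, Or.inl hc', h⟩
        · exact (ih.tail ⟨Or.inl hb, Or.inr ⟨rfl, hb⟩, hav⟩).tail
            ⟨Or.inr ⟨rfl, hb⟩, Or.inl hc', h⟩
        · exact (ih.tail ⟨Or.inl hb, Or.inr ⟨rfl, hc'⟩, h.symm⟩).tail
            ⟨Or.inr ⟨rfl, hc'⟩, Or.inl hc', hav.symm⟩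
    refine ⟨⟨x0, Or.inl hx0⟩, ?_⟩
    rintro x (hx | ⟨rfl, ha⟩) y (hy | ⟨rfl, ha'⟩)
    · exact key x hx y hy
    · exact (key x hx a ha').tail ⟨Or.inl ha', Or.inr ⟨rfl, ha'⟩, hav⟩
    · exact ReflTransGen.head ⟨Or.inr ⟨rfl, ha⟩, Or.inl ha, hav.symm⟩ (key a ha y hy)
    · exact ReflTransGen.refl
  · rw [Set.disjoint_left]
    rintro x (hx | ⟨rfl, ha⟩) (hy | ⟨hxv, ha'⟩)
    · exact Set.disjoint_left.1 (h3 i j hij) hx hy
    · exact hvB i (hxv ▸ hx)
    · exact hvB j hy
    · exact Set.disjoint_left.1 (h3 i j hij) ha ha'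
  · obtain ⟨x, hx, y, hy, -, h | ⟨rfl, h⟩ | ⟨rfl, h⟩⟩ := h4 i j hij
    · exact ⟨x, Or.inl hx, y, Or.inl hy, h⟩
    · exact ⟨v, Or.inr ⟨rfl, hx⟩, y, Or.inl hy, h⟩
    · exact ⟨x, Or.inl hx, v, Or.inr ⟨rfl, hy⟩, h.symm⟩

/-- Neighbours inside `S`. -/
noncomputable def nb (G : SimpleGraph V) (S : Finset V) (x : V) : Finset V := S.filter (G.Adj x)

omit [DecidableEq V] in
lemma mem_nb {G : SimpleGraph V} {S : Finset V} {x y : V} : y ∈ nb G S x ↔ y ∈ S ∧ G.Adj x y := by
  simp [nb]

lemma exists_nb_ne {G : SimpleGraph V} {S : Finset V} {x : V} (h : 3 ≤ (nb G S x).card) (a b : V) :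
    ∃ y ∈ S, G.Adj x y ∧ y ≠ a ∧ y ≠ b := by
  obtain ⟨y, hy, hy'⟩ := exists_mem_notMem_of_card_lt_card
    (s := ({a, b} : Finset V)) (t := nb G S x) (lt_of_le_of_lt card_le_two (by omega))
  simp only [mem_insert, mem_singleton, not_or] at hy'
  exact ⟨y, (mem_nb.1 hy).1, (mem_nb.1 hy).2, hy'⟩

lemma dirac_aux (m : ℕ) : ∀ (G : SimpleGraph V) (S : Finset V), S.card ≤ m →
    (∀ a b, a ∈ S → b ∈ S → G.Adj a b → (∃ c ∈ S, c ≠ a ∧ c ≠ b) →
      (∀ x ∈ S, x ≠ a → x ≠ b → 3 ≤ (nb G S x).card) → HasK4 G S) ∧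
    (∀ a, (∃ c ∈ S, c ≠ a) → (∀ x ∈ S, x ≠ a → 3 ≤ (nb G S x).card) → HasK4 G S) := by
  induction m with
  | zero =>
    intro G S hS
    obtain rfl : S = ∅ := card_eq_zero.1 (by omega)
    exact ⟨fun a _ h => absurd h (notMem_empty a), fun _ ⟨c, h, _⟩ => absurd h (notMem_empty c)⟩
  | succ m ih =>
    intro G S hS
    have hA : ∀ a b, a ∈ S → b ∈ S → G.Adj a b → (∃ c ∈ S, c ≠ a ∧ c ≠ b) →
        (∀ x ∈ S, x ≠ a → x ≠ b → 3 ≤ (nb G S x).card) → HasK4 G S := by
      intro a b ha hb hab hc hdeg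
      by_cases hcom : ∃ c ∈ S, G.Adj c a ∧ G.Adj c b
      · obtain ⟨c, hc, hca, hcb⟩ := hcom
        obtain ⟨d, hd, hcd, hda, hdb⟩ := exists_nb_ne (hdeg c hc hca.ne hcb.ne) a b
        let ok : V → Prop := fun x => x ∈ S ∧ x ≠ a ∧ x ≠ b ∧ x ≠ c
        let rel : V → V → Prop := fun p q => ok p ∧ ok q ∧ G.Adj p q
        let D : Set V := {x | ReflTransGen rel d x}
        have hokd : ok d := ⟨hd, hda, hdb, hcd.ne'⟩
        have hD : ∀ x ∈ D, ok x := by
          intro x hx
          induction hx with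
          | refl => exact hokd
          | tail _ h _ => exact h.2.1
        have hDc : Conn G D := by
          have key : ∀ x ∈ D, ReflTransGen (fun p q => p ∈ D ∧ q ∈ D ∧ G.Adj p q) d x := by
            intro x hx
            induction hx with
            | refl => exact ReflTransGen.refl
            | tail h1 h2 ih => exact ih.tail ⟨h1, h1.tail h2, h2.2.2⟩
          refine ⟨⟨d, ReflTransGen.refl⟩, fun x hx y hy => ReflTransGen.trans ?_ (key y hy)⟩
          have := key x hx
          clear hx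
          induction this with
          | refl => exact ReflTransGen.refl
          | tail _ h ih => exact ReflTransGen.head ⟨h.2.1, h.1, h.2.2.symm⟩ ih
        have small : ∀ p q w, p ∈ S → q ∈ S → w ∈ S → G.Adj p q → w ≠ p → w ≠ q →
            (∀ x, ¬ ok x → x ∈ S → x = p ∨ x = q ∨ x = w) → ¬ ok p → ¬ ok q → ¬ ok w →
            (∀ x ∈ D, ¬ G.Adj w x) → HasK4 G S := by
          intro p q w hp hq hw hpq hwp hwq hall hp' hq' hw' hno
          let S' := S.filter fun x => x ∈ D ∨ x = p ∨ x = q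
          have hsub : S' ⊆ S.erase w := by
            intro x hx
            rw [mem_filter] at hx
            rw [mem_erase]
            refine ⟨?_, hx.1⟩
            rintro rfl
            rcases hx.2 with h | h | h
            · exact hw' (hD _ h)
            · exact hwp h
            · exact hwq h
          have hcard : S'.card ≤ m := by
            have := card_le_card hsub
            rw [card_erase_of_mem hw] at this
            omega
          refine ((ih G S' hcard).1 p q (by simp [S', hp]) (by simp [S', hq]) hpq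
            ⟨d, mem_filter.2 ⟨hd, Or.inl ReflTransGen.refl⟩, fun h => hp' (h ▸ hokd),
              fun h => hq' (h ▸ hokd)⟩ fun x hx hxp hxq => ?_).mono (filter_subset _ _)
          have hxD : x ∈ D := by
            rcases (mem_filter.1 hx).2 with h | h | h
            · exact h
            · exact absurd h hxp
            · exact absurd h hxq
          have hxo := hD x hxD
          refine (hdeg x hxo.1 hxo.2.1 hxo.2.2.1).trans (card_le_card fun y hy => ?_)
          rw [mem_nb] at hy ⊢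
          refine ⟨mem_filter.2 ⟨hy.1, ?_⟩, hy.2⟩
          by_cases hyo : ok y
          · exact Or.inl (ReflTransGen.tail hxD ⟨hxo, hyo, hy.2⟩)
          · rcases hall y hyo hy.1 with h | h | h
            · exact Or.inr (Or.inl h)
            · exact Or.inr (Or.inr h)
            · exact absurd (h ▸ hy.2.symm) (hno x hxD)
        have hall : ∀ x, ¬ ok x → x ∈ S → x = a ∨ x = b ∨ x = c := by
          intro x hx hxS
          by_contra hn
          push Not at hn
          exact hx ⟨hxS, hn⟩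
        have na : ¬ ok a := fun h => h.2.1 rfl
        have nb' : ¬ ok b := fun h => h.2.2.1 rfl
        have nc : ¬ ok c := fun h => h.2.2.2 rfl
        by_cases h1 : ∀ x ∈ D, ¬ G.Adj a x
        · exact small b c a hb hc ha hcb.symm hab.ne hca.ne'
            (fun x h h' => by have := hall x h h'; tauto) nb' nc na h1
        by_cases h2 : ∀ x ∈ D, ¬ G.Adj b x
        · exact small a c b ha hc hb hca.symm hab.ne' hcb.ne'
            (fun x h h' => by have := hall x h h'; tauto) na nc nb' h2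
        push Not at h1 h2
        obtain ⟨xa, hxa, hxa'⟩ := h1
        obtain ⟨xb, hxb, hxb'⟩ := h2
        have hdD : d ∈ D := ReflTransGen.refl
        have da : a ∉ D := fun h => na (hD _ h)
        have db : b ∉ D := fun h => nb' (hD _ h)
        have dc : c ∉ D := fun h => nc (hD _ h)
        refine ⟨![{a}, {b}, {c}, D], fun i => ?_, fun i => ?_, fun i j hij => ?_, fun i j hij => ?_⟩
        · fin_cases i
          · simpa using ha
          · simpa using hb
          · simpa using hc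
          · exact fun x hx => (hD x hx).1
        · fin_cases i
          · exact conn_singleton G a
          · exact conn_singleton G b
          · exact conn_singleton G c
          · exact hDc
        · fin_cases i <;> fin_cases j <;>
            simp [hab.ne, hab.ne', hca.ne, hca.ne', hcb.ne, hcb.ne', da, db, dc] at hij ⊢
        · fin_cases i <;> fin_cases j <;> simp at hij ⊢
          · exact hab
          · exact hca.symm
          · exact ⟨xa, hxa, hxa'⟩
          · exact hab.symm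
          · exact hcb.symm
          · exact ⟨xb, hxb, hxb'⟩
          · exact hca
          · exact hcb
          · exact ⟨d, hdD, hcd⟩
          · exact ⟨xa, hxa, hxa'.symm⟩
          · exact ⟨xb, hxb, hxb'.symm⟩
          · exact ⟨d, hdD, hcd.symm⟩
      · refine HasK4.of_contr hab hb ((ih (contr G a b) (S.erase b) ?_).2 a ?_ ?_)
        · rw [card_erase_of_mem hb]; omega
        · obtain ⟨c, hc, h1, h2⟩ := hc
          exact ⟨c, mem_erase.2 ⟨h2, hc⟩, h1⟩
        · intro x hx hxa
          rw [mem_erase] at hx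
          refine (hdeg x hx.2 hxa hx.1).trans
            (card_le_card_of_injOn (fun y => if y = b then a else y) ?_ ?_)
          · intro y hy
            rw [mem_coe, mem_nb] at hy
            rw [mem_coe, mem_nb, mem_erase]
            by_cases hyb : y = b
            · simp only [hyb, if_true]
              exact ⟨⟨hab.ne, ha⟩, hxa, Or.inr (Or.inr ⟨rfl, (hyb ▸ hy.2).symm⟩)⟩
            · simp only [hyb, if_false]
              exact ⟨⟨hyb, hy.1⟩, hy.2.ne, Or.inl hy.2⟩
          · intro y hy z hz he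
            rw [mem_coe, mem_nb] at hy hz
            simp only at he
            split_ifs at he with h1 h2 h2
            · rw [h1, h2]
            · exact absurd ⟨x, hx.2, he ▸ hz.2, h1 ▸ hy.2⟩ hcom
            · exact absurd ⟨x, hx.2, he ▸ hy.2, h2 ▸ hz.2⟩ hcom
            · exact he
    refine ⟨hA, fun a ⟨c, hc, hca⟩ hdeg => ?_⟩
    by_cases haS : a ∈ S
    · by_cases hn : ∃ b ∈ S, G.Adj a b
      · obtain ⟨b, hb, hab⟩ := hn
        obtain ⟨d, hd, _, hd'⟩ := exists_nb_ne (hdeg c hc hca) a b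
        exact hA a b haS hb hab ⟨d, hd, hd'⟩ fun x hx h _ => hdeg x hx h
      · refine ((ih G (S.erase a) ?_).2 a ⟨c, mem_erase.2 ⟨hca, hc⟩, hca⟩ ?_).mono
          (erase_subset _ _)
        · rw [card_erase_of_mem haS]; omega
        · intro x hx hxa
          refine (hdeg x (mem_of_mem_erase hx) hxa).trans (card_le_card fun y hy => ?_)
          rw [mem_nb] at hy ⊢
          exact ⟨mem_erase.2 ⟨fun h => hn ⟨x, mem_of_mem_erase hx, (h ▸ hy.2).symm⟩, hy.1⟩, hy.2⟩
    · obtain ⟨b, hb, hcb, -⟩ := exists_nb_ne (hdeg c hc hca) a a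
      obtain ⟨d, hd, hcd, hd', -⟩ := exists_nb_ne (hdeg c hc hca) b b
      exact hA c b hc hb hcb ⟨d, hd, hcd.ne', hd'⟩ fun x hx _ _ => hdeg x hx fun h => haS (h ▸ hx)

lemma dirac {G : SimpleGraph V} {S : Finset V} (hS : S.Nonempty) (h : ¬ HasK4 G S) :
    ∃ v ∈ S, (nb G S v).card ≤ 2 := by
  by_contra hc
  push Not at hc
  obtain ⟨a, ha⟩ := hS
  obtain ⟨b, hb, hab, -⟩ := exists_nb_ne (hc a ha) a a
  exact h ((dirac_aux _ G S le_rfl).2 a ⟨b, hb, hab.ne'⟩ fun x hx _ => hc x hx)

end Pool.Agent.MP_a4cd82_co
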